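import Pool.Agent.H30.BV.Targets

/-! GS. Gauss sums of primitive characters, one modulus. -/

set_option autoImplicit false

open Finset Complex

namespace Pool.Agent.H60.BV

open Pool.Agent.H30.BV
open Pool.Agent.H27.LS (hat trig muGT gam)

section

variable (q : ℕ) [NeZero q]

private lemma char_star {q : ℕ} [NeZero q] (χ : DirichletCharacter ℂ q) (b : ZMod q) :
    (starRingEnd ℂ) (χ b) = χ⁻¹ b := by
  rw [starRingEnd_apply, MulChar.star_apply']

open Classical in
/-- Parseval for characters -/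
private lemma sum_norm_sq_char (z : ZMod q → ℂ) :
    ∑ χ : DirichletCharacter ℂ q, ‖∑ b, χ b * z b‖ ^ 2 =
      (q.totient : ℝ) * ∑ b ∈ univ.filter (fun b : ZMod q => IsUnit b), ‖z b‖ ^ 2 := by
  have h1 : ∀ χ : DirichletCharacter ℂ q, ((‖∑ b, χ b * z b‖ ^ 2 : ℝ) : ℂ) =
      ∑ b, ∑ b', (χ b * χ⁻¹ b') * (z b * (starRingEnd ℂ) (z b')) := by
    intro χ
    rw [← Complex.normSq_eq_norm_sq, ← Complex.mul_conj, map_sum, Finset.sum_mul_sum]
    refine Finset.sum_congr rfl fun b _ => Finset.sum_congr rfl fun b' _ => ?_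
    rw [map_mul, char_star]
    ring
  have h2 : ∀ b b' : ZMod q, ∑ χ : DirichletCharacter ℂ q, χ b * χ⁻¹ b' =
      if b = b' ∧ IsUnit b then ((q.totient : ℝ) : ℂ) else 0 := by
    intro b b'
    by_cases hb' : IsUnit b'
    · obtain ⟨u, rfl⟩ := hb'
      have h3 : ∀ χ : DirichletCharacter ℂ q, χ b * χ⁻¹ (u : ZMod q) =
          χ (u : ZMod q)⁻¹ * χ b := by
        intro χ
        rw [MulChar.inv_apply, Ring.inverse_unit, ZMod.inv_coe_unit, mul_comm]
      rw [Finset.sum_congr rfl fun χ _ => h3 χ,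
        DirichletCharacter.sum_char_inv_mul_char_eq ℂ u.isUnit b]
      by_cases h : b = u
      · rw [if_pos h.symm, if_pos ⟨h, h ▸ u.isUnit⟩]
        push_cast
        rfl
      · rw [if_neg (fun e => h e.symm), if_neg (fun e => h e.1)]
    · rw [Finset.sum_eq_zero (fun χ _ => by rw [MulChar.map_nonunit _ hb', mul_zero]), if_neg]
      rintro ⟨h, h'⟩
      exact hb' (h ▸ h')
  have h4 : ((∑ χ : DirichletCharacter ℂ q, ‖∑ b, χ b * z b‖ ^ 2 : ℝ) : ℂ) =
      (((q.totient : ℝ) * ∑ b ∈ univ.filter (fun b : ZMod q => IsUnit b), ‖z b‖ ^ 2 : ℝ) : ℂ) := by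
    rw [Complex.ofReal_sum, Finset.sum_congr rfl fun χ _ => h1 χ, Finset.sum_comm]
    have h5 : ∀ b : ZMod q, ∑ χ : DirichletCharacter ℂ q, ∑ b', (χ b * χ⁻¹ b') *
        (z b * (starRingEnd ℂ) (z b')) = if IsUnit b then ((q.totient : ℝ) : ℂ) *
          ((‖z b‖ ^ 2 : ℝ) : ℂ) else 0 := by
      intro b
      rw [Finset.sum_comm]
      have h6 : ∀ b' : ZMod q, ∑ χ : DirichletCharacter ℂ q, (χ b * χ⁻¹ b') *
          (z b * (starRingEnd ℂ) (z b')) =
          (if b = b' ∧ IsUnit b then ((q.totient : ℝ) : ℂ) else 0) *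
            (z b * (starRingEnd ℂ) (z b')) := by
        intro b'
        rw [← Finset.sum_mul, h2]
      rw [Finset.sum_congr rfl fun b' _ => h6 b']
      rw [Finset.sum_eq_single b]
      · by_cases hb : IsUnit b
        · rw [if_pos ⟨rfl, hb⟩, if_pos hb, Complex.mul_conj, Complex.normSq_eq_norm_sq]
        · rw [if_neg (fun e => hb e.2), if_neg hb, zero_mul]
      · intro b' _ hbb'
        rw [if_neg (fun e => hbb' e.1.symm), zero_mul]
      · intro h; exact absurd (Finset.mem_univ _) h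
    rw [Finset.sum_congr rfl fun b _ => h5 b, ← Finset.sum_filter, Complex.ofReal_mul,
      Complex.ofReal_sum, Finset.mul_sum]
  exact_mod_cast h4

/-- Parseval for the additive characters -/
private lemma sum_norm_sq_add (z : ZMod q → ℂ) :
    ∑ a : ZMod q, ‖∑ b, z b * ZMod.stdAddChar (b * a)‖ ^ 2 = (q : ℝ) * ∑ b, ‖z b‖ ^ 2 := by
  classical
  have hst : ∀ x : ZMod q, (starRingEnd ℂ) (ZMod.stdAddChar x) = ZMod.stdAddChar (-x) := by
    intro x
    exact (AddChar.map_neg_eq_conj _ x).symm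
  have h1 : ∀ a : ZMod q, ((‖∑ b, z b * ZMod.stdAddChar (b * a)‖ ^ 2 : ℝ) : ℂ) =
      ∑ b, ∑ b', (z b * (starRingEnd ℂ) (z b')) * ZMod.stdAddChar (a * (b - b')) := by
    intro a
    rw [← Complex.normSq_eq_norm_sq, ← Complex.mul_conj, map_sum, Finset.sum_mul_sum]
    refine Finset.sum_congr rfl fun b _ => Finset.sum_congr rfl fun b' _ => ?_
    rw [map_mul (starRingEnd ℂ), hst, show a * (b - b') = b * a + -(b' * a) by ring, AddChar.map_add_eq_mul]
    ring
  have h4 : ((∑ a : ZMod q, ‖∑ b, z b * ZMod.stdAddChar (b * a)‖ ^ 2 : ℝ) : ℂ) =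
      (((q : ℝ) * ∑ b, ‖z b‖ ^ 2 : ℝ) : ℂ) := by
    rw [Complex.ofReal_sum, Finset.sum_congr rfl fun a _ => h1 a, Finset.sum_comm]
    have h5 : ∀ b : ZMod q, ∑ a : ZMod q, ∑ b', (z b * (starRingEnd ℂ) (z b')) *
        ZMod.stdAddChar (a * (b - b')) = (q : ℂ) * ((‖z b‖ ^ 2 : ℝ) : ℂ) := by
      intro b
      rw [Finset.sum_comm]
      have h6 : ∀ b' : ZMod q, ∑ a : ZMod q, (z b * (starRingEnd ℂ) (z b')) *
          ZMod.stdAddChar (a * (b - b')) =
          (z b * (starRingEnd ℂ) (z b')) * (if b - b' = 0 then (q : ℂ) else 0) := by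
        intro b'
        rw [← Finset.mul_sum, AddChar.sum_mulShift (b - b') (ZMod.isPrimitive_stdAddChar q),
          ZMod.card]
        split_ifs <;> simp
      rw [Finset.sum_congr rfl fun b' _ => h6 b', Finset.sum_eq_single b]
      · rw [if_pos (sub_self b), Complex.mul_conj, Complex.normSq_eq_norm_sq, mul_comm]
      · intro b' _ hbb'
        rw [if_neg (fun e => hbb' (sub_eq_zero.1 e).symm), mul_zero]
      · intro h; exact absurd (Finset.mem_univ _) h
    rw [Finset.sum_congr rfl fun b _ => h5 b, ← Finset.mul_sum]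
    push_cast
    rfl
  exact_mod_cast h4

private lemma gaussSum_shift {χ : DirichletCharacter ℂ q} (hχ : χ.IsPrimitive) (n : ZMod q) :
    ∑ b, χ b * ZMod.stdAddChar (b * n) =
      χ⁻¹ n * gaussSum χ (ZMod.stdAddChar (N := q)) := by
  rw [← gaussSum_mulShift_of_isPrimitive (ZMod.stdAddChar (N := q)) hχ n, gaussSum]
  refine Finset.sum_congr rfl fun b _ => ?_
  rw [AddChar.mulShift_apply, mul_comm b n]

/-- The Gauss sum of a primitive character has absolute value `√q`. -/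
private lemma norm_gaussSum_sq {χ : DirichletCharacter ℂ q} (hχ : χ.IsPrimitive) :
    ‖gaussSum χ (ZMod.stdAddChar (N := q))‖ ^ 2 = q := by
  have h1 := sum_norm_sq_add q fun b => χ b
  have h2 : ∑ a : ZMod q, ‖∑ b, χ b * ZMod.stdAddChar (b * a)‖ ^ 2 =
      ‖gaussSum χ (ZMod.stdAddChar (N := q))‖ ^ 2 * ∑ a : ZMod q, ‖χ a‖ ^ 2 := by
    rw [Finset.mul_sum]
    refine Finset.sum_congr rfl fun a _ => ?_
    rw [gaussSum_shift q hχ, norm_mul, mul_pow, ← char_star, RCLike.norm_conj, mul_comm]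
  rw [h2] at h1
  have h3 : (0 : ℝ) < ∑ a : ZMod q, ‖χ a‖ ^ 2 := by
    refine Finset.sum_pos' (fun _ _ => by positivity) ⟨1, Finset.mem_univ _, ?_⟩
    rw [MulChar.map_one]
    simp
  exact mul_right_cancel₀ h3.ne' h1

end

/-- GS -/
theorem gs : T_GS := by
  classical
  intro m N a
  set q : ℕ := m + 1 with hq
  haveI : NeZero q := ⟨by omega⟩
  have hq0 : (0 : ℝ) < q := by exact_mod_cast Nat.pos_of_ne_zero (NeZero.ne q)
  set S : ZMod q → ℂ := fun b => ∑ n ∈ range N, a n * ZMod.stdAddChar (b * (n : ZMod q)) with hS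
  set S' : ZMod q → ℂ := fun b => ∑ n ∈ range N, (starRingEnd ℂ) (a n) *
    ZMod.stdAddChar (b * (n : ZMod q)) with hS'
  have hSS : ∀ b, ‖S' b‖ = ‖S (-b)‖ := by
    intro b
    have h1 : S' b = (starRingEnd ℂ) (S (-b)) := by
      rw [hS, hS', map_sum]
      refine Finset.sum_congr rfl fun n _ => ?_
      rw [map_mul (starRingEnd ℂ), ← AddChar.map_neg_eq_conj]
      congr 2
      ring
    rw [h1, RCLike.norm_conj]
  have h1 : ∀ χ : DirichletCharacter ℂ q, χ.IsPrimitive →
      (q : ℝ) * ‖∑ n ∈ range N, a n * cv χ n‖ ^ 2 = ‖∑ b, χ b * S' b‖ ^ 2 := by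
    intro χ hχ
    have h2 : ∑ b, χ b * S' b =
        (∑ n ∈ range N, (starRingEnd ℂ) (a n) * χ⁻¹ (n : ZMod q)) *
          gaussSum χ (ZMod.stdAddChar (N := q)) := by
      have h3 : ∀ b : ZMod q, χ b * S' b =
          ∑ n ∈ range N, (starRingEnd ℂ) (a n) * (χ b * ZMod.stdAddChar (b * (n : ZMod q))) := by
        intro b
        rw [hS', Finset.mul_sum]
        refine Finset.sum_congr rfl fun n _ => ?_
        ring
      rw [Finset.sum_congr rfl fun b _ => h3 b, Finset.sum_comm, Finset.sum_mul]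
      refine Finset.sum_congr rfl fun n _ => ?_
      rw [← Finset.mul_sum, gaussSum_shift q hχ]
      ring
    have h4 : ‖∑ n ∈ range N, (starRingEnd ℂ) (a n) * χ⁻¹ (n : ZMod q)‖ =
        ‖∑ n ∈ range N, a n * cv χ n‖ := by
      have h5 : ∑ n ∈ range N, (starRingEnd ℂ) (a n) * χ⁻¹ (n : ZMod q) =
          (starRingEnd ℂ) (∑ n ∈ range N, a n * cv χ n) := by
        rw [map_sum]
        refine Finset.sum_congr rfl fun n _ => ?_
        rw [map_mul, cv, char_star]
      rw [h5, RCLike.norm_conj]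
    rw [h2, norm_mul, mul_pow, norm_gaussSum_sq q hχ, h4]
    ring
  have h4 : (q : ℝ) * ∑ χ ∈ univ.filter (fun χ : DirichletCharacter ℂ q => χ.IsPrimitive),
      ‖∑ n ∈ range N, a n * cv χ n‖ ^ 2 ≤
      (q : ℝ) * ∑ b ∈ univ.filter (fun b : ZMod q => IsUnit b), ‖S b‖ ^ 2 := by
    calc (q : ℝ) * ∑ χ ∈ univ.filter (fun χ : DirichletCharacter ℂ q => χ.IsPrimitive),
          ‖∑ n ∈ range N, a n * cv χ n‖ ^ 2
        = ∑ χ ∈ univ.filter (fun χ : DirichletCharacter ℂ q => χ.IsPrimitive),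
            ‖∑ b, χ b * S' b‖ ^ 2 := by
          rw [Finset.mul_sum]
          exact Finset.sum_congr rfl fun χ hχ => h1 χ (Finset.mem_filter.1 hχ).2
      _ ≤ ∑ χ : DirichletCharacter ℂ q, ‖∑ b, χ b * S' b‖ ^ 2 :=
          Finset.sum_le_sum_of_subset_of_nonneg (Finset.filter_subset _ _)
            fun _ _ _ => by positivity
      _ = (q.totient : ℝ) * ∑ b ∈ univ.filter (fun b : ZMod q => IsUnit b), ‖S' b‖ ^ 2 :=
          sum_norm_sq_char q S'
      _ ≤ (q : ℝ) * ∑ b ∈ univ.filter (fun b : ZMod q => IsUnit b), ‖S' b‖ ^ 2 := by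
          gcongr
          exact Nat.totient_le q
      _ = (q : ℝ) * ∑ b ∈ univ.filter (fun b : ZMod q => IsUnit b), ‖S b‖ ^ 2 := by
          congr 1
          refine Finset.sum_bij (fun b _ => -b) ?_ ?_ ?_ ?_
          · intro b hb
            rw [Finset.mem_filter] at hb ⊢
            exact ⟨Finset.mem_univ _, hb.2.neg⟩
          · intro b _ c _ h
            exact neg_injective h
          · intro b hb
            rw [Finset.mem_filter] at hb
            exact ⟨-b, Finset.mem_filter.2 ⟨Finset.mem_univ _, hb.2.neg⟩, neg_neg b⟩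
          · intro b _
            rw [hSS]
  have h5 := le_of_mul_le_mul_left h4 hq0
  refine (le_of_eq ?_).trans (h5.trans (le_of_eq ?_))
  · refine Finset.sum_congr ?_ fun _ _ => rfl
    ext χ
    simp
  symm
  refine Finset.sum_bij (fun (b : ℕ) _ => (b : ZMod q)) ?_ ?_ ?_ ?_
  · intro b hb
    rw [Finset.mem_filter] at hb
    refine Finset.mem_filter.2 ⟨Finset.mem_univ _, ?_⟩
    exact (ZMod.isUnit_iff_coprime b q).2 hb.2
  · intro b hb c hc h
    rw [Finset.mem_filter, Finset.mem_range] at hb hc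
    have := (ZMod.natCast_eq_natCast_iff' b c q).1 h
    rwa [Nat.mod_eq_of_lt hb.1, Nat.mod_eq_of_lt hc.1] at this
  · intro b hb
    have hb' := (Finset.mem_filter.1 hb).2
    refine ⟨b.val, ?_, ?_⟩
    · rw [Finset.mem_filter, Finset.mem_range]
      refine ⟨ZMod.val_lt b, ?_⟩
      rw [← ZMod.isUnit_iff_coprime]
      simpa using hb'
    · simp
  · intro b _
    rw [hS, trig]
    congr 2
    refine Finset.sum_congr rfl fun n _ => ?_
    congr 1
    have h6 : ((b : ZMod q) * (n : ZMod q)) = (((b * n : ℕ) : ℤ) : ZMod q) := by push_cast; rfl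
    rw [h6, ZMod.stdAddChar_coe]
    congr 1
    push_cast
    ring

end Pool.Agent.H60.BV
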